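import Mathlib

set_option autoImplicit false

namespace Pool.Agent.MP_bacbeb_nt

/-- Dedekind psi function -/
def psi (n : ℕ) : ℕ := ∏ p ∈ n.primeFactors, p ^ (n.factorization p - 1) * (p + 1)

/-- the averaging map -/
def F (n : ℕ) : ℕ := (Nat.totient n + psi n) / 2

lemma psi_one : psi 1 = 1 := by simp [psi]

lemma psi_mul_of_not_dvd {p N : ℕ} (hp : p.Prime) (hN : N ≠ 0) (h : ¬ p ∣ N) :
    psi (p * N) = (p + 1) * psi N := by
  unfold psi
  have hm : p ∉ N.primeFactors := fun hh => h (Nat.dvd_of_mem_primeFactors hh)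
  rw [Nat.primeFactors_mul hp.ne_zero hN, hp.primeFactors, ← Finset.insert_eq,
    Finset.prod_insert hm, Nat.factorization_mul hp.ne_zero hN, hp.factorization]
  have h0 : N.factorization p = 0 := Nat.factorization_eq_zero_of_not_dvd h
  refine congrArg₂ (· * ·) (by simp [h0]) (Finset.prod_congr rfl fun q hq => ?_)
  have hne : p ≠ q := fun e => hm (e ▸ hq)
  simp [hne]

lemma psi_mul_of_dvd {p N : ℕ} (hp : p.Prime) (hN : N ≠ 0) (h : p ∣ N) :
    psi (p * N) = p * psi N := by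
  unfold psi
  have hm : p ∈ N.primeFactors := Nat.mem_primeFactors.2 ⟨hp, h, hN⟩
  have e : (p * N).primeFactors = N.primeFactors := by
    rw [Nat.primeFactors_mul hp.ne_zero hN, hp.primeFactors, ← Finset.insert_eq,
      Finset.insert_eq_of_mem hm]
  rw [e, ← Finset.mul_prod_erase _ _ hm, ← Finset.mul_prod_erase _ _ hm,
    Nat.factorization_mul hp.ne_zero hN, hp.factorization, ← mul_assoc]
  have h1 : 0 < N.factorization p := hp.factorization_pos_of_dvd hN h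
  refine congrArg₂ (· * ·) ?_ (Finset.prod_congr rfl fun q hq => ?_)
  · obtain ⟨k, hk⟩ : ∃ k, N.factorization p = k + 1 := ⟨_, (Nat.succ_pred_eq_of_pos h1).symm⟩
    simp only [Finsupp.coe_add, Pi.add_apply, Finsupp.single_eq_same, hk]
    rw [show 1 + (k + 1) - 1 = k + 1 by omega, show k + 1 - 1 = k by omega]
    ring
  · have hne : p ≠ q := fun e => (Finset.mem_erase.1 hq).1 e.symm
    simp [hne]

lemma scale_pow {p N : ℕ} (hp : p.Prime) (hN : N ≠ 0) (h : p ∣ N) (k : ℕ) :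
    Nat.totient (p ^ k * N) = p ^ k * Nat.totient N ∧ psi (p ^ k * N) = p ^ k * psi N := by
  induction k with
  | zero => simp
  | succ k ih =>
    have h0 : p ^ k * N ≠ 0 := mul_ne_zero (pow_ne_zero _ hp.ne_zero) hN
    have h1 : p ∣ p ^ k * N := Dvd.dvd.mul_left h _
    rw [pow_succ', mul_assoc, Nat.totient_mul_of_prime_of_dvd hp h1, psi_mul_of_dvd hp h0 h1,
      ih.1, ih.2]
    constructor <;> ring

lemma scale_pow' {p N k : ℕ} (hp : p.Prime) (hN : N ≠ 0) (h : k = 0 ∨ p ∣ N) :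
    Nat.totient (p ^ k * N) = p ^ k * Nat.totient N ∧ psi (p ^ k * N) = p ^ k * psi N := by
  rcases h with h | h
  · simp [h]
  · exact scale_pow hp hN h k

lemma F_scale {N a b c e : ℕ} (hN : N ≠ 0) (h2 : a = 0 ∨ 2 ∣ N) (h3 : b = 0 ∨ 3 ∣ N)
    (h5 : c = 0 ∨ 5 ∣ N) (h7 : e = 0 ∨ 7 ∣ N) (hev : (Nat.totient N + psi N) % 2 = 0) :
    F (2 ^ a * (3 ^ b * (5 ^ c * (7 ^ e * N)))) = 2 ^ a * (3 ^ b * (5 ^ c * (7 ^ e * F N))) := by
  have a7 := scale_pow' (k := e) (by norm_num : Nat.Prime 7) hN h7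
  have a5 := scale_pow' (k := c) (N := 7 ^ e * N) (by norm_num : Nat.Prime 5) (by positivity)
    (h5.imp id fun h => h.mul_left _)
  have a3 := scale_pow' (k := b) (N := 5 ^ c * (7 ^ e * N)) Nat.prime_three (by positivity)
    (h3.imp id fun h => (h.mul_left _).mul_left _)
  have a2 := scale_pow' (k := a) (N := 3 ^ b * (5 ^ c * (7 ^ e * N))) Nat.prime_two (by positivity)
    (h2.imp id fun h => ((h.mul_left _).mul_left _).mul_left _)
  unfold F
  rw [a2.1, a2.2, a3.1, a3.2, a5.1, a5.2, a7.1, a7.2]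
  obtain ⟨t, ht⟩ : ∃ t, Nat.totient N + psi N = 2 * t := ⟨_, (Nat.mul_div_cancel' (Nat.dvd_of_mod_eq_zero hev)).symm⟩
  rw [← mul_add, ← mul_add, ← mul_add, ← mul_add, ht, Nat.mul_div_cancel_left _ two_pos]
  rw [show 2 ^ a * (3 ^ b * (5 ^ c * (7 ^ e * (2 * t)))) =
    2 * (2 ^ a * (3 ^ b * (5 ^ c * (7 ^ e * t)))) by ring, Nat.mul_div_cancel_left _ two_pos]

/-- the orbit reaches `1` or a prime power, or meets the orbit of `1488` -/
def Good (n : ℕ) : Prop :=
  (∃ j, F^[j] n = 1 ∨ IsPrimePow (F^[j] n)) ∨ ∃ j k, F^[j] n = F^[k] 1488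

lemma Good.of_F {n : ℕ} (h : Good (F n)) : Good n := by
  rcases h with ⟨j, h⟩ | ⟨j, k, h⟩
  · exact Or.inl ⟨j + 1, h⟩
  · exact Or.inr ⟨j + 1, k, h⟩

lemma good_one : Good 1 := Or.inl ⟨0, Or.inl rfl⟩

lemma good_pp {n : ℕ} (h : IsPrimePow n) : Good n := Or.inl ⟨0, Or.inr h⟩

lemma good_pow {p : ℕ} (hp : p.Prime) (k : ℕ) : Good (p ^ k) := by
  rcases Nat.eq_zero_or_pos k with h | h
  · rw [h]; exact good_one
  · exact good_pp (hp.isPrimePow.pow h.ne')

/-- number, totient and psi value of a product of primes -/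
def evL : List ℕ → ℕ × ℕ × ℕ
  | [] => (1, 1, 1)
  | q :: l => if (evL l).1 % q = 0 then (q * (evL l).1, q * (evL l).2.1, q * (evL l).2.2)
      else (q * (evL l).1, (q - 1) * (evL l).2.1, (q + 1) * (evL l).2.2)

lemma evL_spec (l : List ℕ) (h : ∀ q ∈ l, q.Prime) :
    (evL l).1 ≠ 0 ∧ (evL l).2.1 = Nat.totient (evL l).1 ∧ (evL l).2.2 = psi (evL l).1 := by
  induction l with
  | nil => simp [evL, psi_one]
  | cons q l ih =>
    have hq := h q (by simp)
    obtain ⟨h0, h1, h2⟩ := ih fun r hr => h r (by simp [hr])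
    unfold evL
    split_ifs with hd
    · have hd' := Nat.dvd_of_mod_eq_zero hd
      exact ⟨mul_ne_zero hq.ne_zero h0, by rw [Nat.totient_mul_of_prime_of_dvd hq hd', h1],
        by rw [psi_mul_of_dvd hq h0 hd', h2]⟩
    · have hd' : ¬ q ∣ (evL l).1 := fun hh => hd (Nat.mod_eq_zero_of_dvd hh)
      exact ⟨mul_ne_zero hq.ne_zero h0, by rw [Nat.totient_mul_of_prime_of_not_dvd hq hd', h1],
        by rw [psi_mul_of_not_dvd hq h0 hd', h2]⟩

/-- one step with symbolic exponents of `2` and `3` -/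
lemma step23 (l : List ℕ) (h : ∀ q ∈ l, q.Prime) {N M : ℕ} (a b : ℕ) (hN : (evL l).1 = N)
    (hM : (evL l).2.1 + (evL l).2.2 = 2 * M) (h2 : a = 0 ∨ 2 ∣ N) (h3 : b = 0 ∨ 3 ∣ N) :
    F (2 ^ a * (3 ^ b * N)) = 2 ^ a * (3 ^ b * M) := by
  obtain ⟨h0, e1, e2⟩ := evL_spec l h
  rw [e1, e2, hN] at hM
  rw [hN] at h0
  have := F_scale (c := 0) (e := 0) h0 h2 h3 (Or.inl rfl) (Or.inl rfl) (by omega)
  have hF : F N = M := by unfold F; omega
  simpa [hF] using this

end Pool.Agent.MP_bacbeb_nt
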